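import Mathlib

set_option autoImplicit false

/-!
# An odd integer above `1155` with perfect deficiency at most `10`

`815634435 = 3 · 5 · 7 · 11 · 547 · 1291` is odd and larger than `1155`; the sum of its proper
divisors is `815634429`, so its perfect deficiency is `6`.
-/

namespace Pool.Agent.Results.MP_7acd66_nt.OddCounterexample

open Finset

/-- One step: subtract the divisor `d` from the remainder `r` when `r ≥ d`. -/
def pdStep (r d : ℕ) : ℕ := if d ≤ r then r - d else r

/-- The perfect deficiency of `n`: starting from `n`, the divisors of `n` are processed in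
increasing order by `pdStep`. -/
def pd (n : ℕ) : ℕ := (n.divisors.sort (· ≤ ·)).foldl pdStep n

theorem foldl_pdStep (l : List ℕ) : ∀ r : ℕ, l.sum ≤ r → l.foldl pdStep r = r - l.sum := by
  induction l with
  | nil => intro r _; simp
  | cons d l ih =>
    intro r hr
    rw [List.sum_cons] at hr
    have h1 : pdStep r d = r - d := if_pos (by omega)
    rw [List.foldl_cons, h1, ih (r - d) (by omega), List.sum_cons]
    omega

theorem sort_divisors (n : ℕ) (hn : 0 < n) :
    n.divisors.sort (· ≤ ·) = n.properDivisors.sort (· ≤ ·) ++ [n] := by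
  apply List.Perm.eq_of_pairwise (le := (· ≤ ·))
  · intro a b _ _ h1 h2; exact le_antisymm h1 h2
  · exact Finset.pairwise_sort _ _
  · rw [List.pairwise_append]
    refine ⟨Finset.pairwise_sort _ _, by simp, ?_⟩
    intro a ha b hb
    rw [Finset.mem_sort, Nat.mem_properDivisors] at ha
    rw [List.mem_singleton] at hb
    rw [hb]; exact ha.2.le
  · rw [List.perm_iff_count]
    intro a
    have h1 : (n.divisors.sort (· ≤ ·)).Nodup := Finset.sort_nodup _ _
    have h2 : (n.properDivisors.sort (· ≤ ·) ++ [n]).Nodup := by
      rw [List.nodup_append]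
      refine ⟨Finset.sort_nodup _ _, by simp, ?_⟩
      intro x hx y hy
      rw [Finset.mem_sort, Nat.mem_properDivisors] at hx
      rw [List.mem_singleton] at hy
      omega
    have h3 : a ∈ n.divisors.sort (· ≤ ·) ↔ a ∈ n.properDivisors.sort (· ≤ ·) ++ [n] := by
      rw [Finset.mem_sort, List.mem_append, Finset.mem_sort, List.mem_singleton,
        ← Nat.insert_self_properDivisors hn.ne', Finset.mem_insert, or_comm]
    by_cases h4 : a ∈ n.divisors.sort (· ≤ ·)
    · rw [List.count_eq_one_of_mem h1 h4, List.count_eq_one_of_mem h2 (h3.1 h4)]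
    · rw [List.count_eq_zero_of_not_mem h4, List.count_eq_zero_of_not_mem (fun h => h4 (h3.2 h))]

theorem pd_eq (n : ℕ) (hn : 0 < n) (h : ∑ d ∈ n.properDivisors, d ≤ n)
    (h0 : 0 < ∑ d ∈ n.properDivisors, d) : pd n = n - ∑ d ∈ n.properDivisors, d := by
  have hs : (n.properDivisors.sort (· ≤ ·)).sum = ∑ d ∈ n.properDivisors, d := by
    have h1 : ((n.properDivisors.sort (· ≤ ·) : List ℕ) : Multiset ℕ) = n.properDivisors.val :=
      Finset.sort_eq _ _
    rw [← Multiset.sum_coe, h1, Finset.sum_eq_multiset_sum, Multiset.map_id']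
  unfold pd
  rw [sort_divisors n hn, List.foldl_append, foldl_pdStep _ n (by rw [hs]; exact h), hs]
  simp only [List.foldl_cons, List.foldl_nil]
  exact if_neg (by omega)

theorem result : (∃ n : ℕ, Odd n ∧ 1155 < n ∧ pd n ≤ 10) ∧
    Odd 815634435 ∧ pd 815634435 = 6 := by
  suffices h : pd 815634435 = 6 from
    ⟨⟨815634435, by decide, by norm_num, by rw [h]; norm_num⟩, by decide, h⟩
  have hfac : (815634435 : ℕ) = 3 * 5 * 7 * 11 * 547 * 1291 := by norm_num
  have hσ : ∑ d ∈ (815634435 : ℕ).divisors, d = 1631268864 := by
    have h : ArithmeticFunction.sigma 1 (815634435 : ℕ) = 1631268864 := by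
      have p1 : Nat.Prime 3 := by norm_num
      have p2 : Nat.Prime 5 := by norm_num
      have p3 : Nat.Prime 7 := by norm_num
      have p4 : Nat.Prime 11 := by norm_num
      have p5 : Nat.Prime 547 := by norm_num
      have p6 : Nat.Prime 1291 := by norm_num
      have hp : ∀ p : ℕ, p.Prime → ArithmeticFunction.sigma 1 p = p + 1 := by
        intro p hp
        rw [ArithmeticFunction.sigma_one_apply, hp.sum_divisors, add_comm]
      have hm := ArithmeticFunction.isMultiplicative_sigma (k := 1)
      rw [hfac, hm.map_mul_of_coprime (by norm_num), hm.map_mul_of_coprime (by norm_num),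
        hm.map_mul_of_coprime (by norm_num), hm.map_mul_of_coprime (by norm_num),
        hm.map_mul_of_coprime (by norm_num), hp 3 p1, hp 5 p2, hp 7 p3, hp 11 p4, hp 547 p5,
        hp 1291 p6]
      norm_num
    rwa [ArithmeticFunction.sigma_one_apply] at h
  have hprop : ∑ d ∈ (815634435 : ℕ).properDivisors, d = 815634429 := by
    have h := Nat.sum_divisors_eq_sum_properDivisors_add_self (n := 815634435)
    omega
  rw [pd_eq _ (by norm_num) (by rw [hprop]; norm_num) (by rw [hprop]; norm_num), hprop]

end Pool.Agent.Results.MP_7acd66_nt.OddCounterexample
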